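import Pool.Agent.H121.FL.Iface
import Pool.Agent.H717.Z987.Wien

/-! `S_wd` of the project FL of helper121: the atoms are seen in the averaged second moments. -/

set_option autoImplicit false

open scoped BigOperators InnerProductSpace Topology ENNReal
open Filter MeasureTheory

namespace Pool.Agent.H277.FL

set_option linter.style.haveILetI false

open Pool.Agent.Y662.TR (LL dv inner_dv ll_sum ll_summable qk_po)
open Pool.Agent.TH369.AN (Rz)
open Pool.Agent.TH369.MU (SpM ep zk qk spm_exists)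
open Pool.Agent.H987.Z
open Pool.Agent.H121.Z987
open Pool.Agent.TH794.LL2 (Po)
open Pool.Agent.H717.Z987
open Pool.Agent.H121.FL

theorem wd : S_wd := by
  intro ι _ T hT x y t ψ hψ
  obtain ⟨mp, hp, -⟩ := spm_exists T hT.sa (dv x + dv y)
  obtain ⟨mn, hn, -⟩ := spm_exists T hT.sa (dv x - dv y)
  obtain ⟨m, hm, -⟩ := spm_exists T hT.sa (dv y)
  haveI := hp.1
  haveI := hn.1
  haveI := hm.1
  obtain ⟨D, hDdef⟩ : ∃ D : Set ℝ, D = ({s | mp {s} ≠ 0} ∪ {s | mn {s} ≠ 0}) ∪ {t} := ⟨_, rfl⟩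
  have hD : D.Countable := by
    rw [hDdef]
    exact ((fin_atoms mp).union (fin_atoms mn)).union (Set.countable_singleton t)
  have htD : t ∈ D := by rw [hDdef]; exact Or.inr rfl
  have hpD : ∀ s, s ∉ D → mp {s} = 0 := by
    intro s hs
    by_contra h
    exact hs (by rw [hDdef]; exact Or.inl (Or.inl h))
  have hnD : ∀ s, s ∉ D → mn {s} = 0 := by
    intro s hs
    by_contra h
    exact hs (by rw [hDdef]; exact Or.inl (Or.inr h))
  -- the value of `ψ`
  have hψ2 : ‖ψ‖ ^ 2 = (mp.real {t} - mn.real {t}) ^ 2 / 16 := by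
    have e1 := ((Fm_atom mp t).sub (Fm_atom mn t)).div_const 4
    have e2 : ∀ k, (-(Complex.I * (ep k : ℂ)) * Fm mp (ep k) t -
        -(Complex.I * (ep k : ℂ)) * Fm mn (ep k) t) / 4 =
        -(Complex.I * (ep k : ℂ)) * Gr T (zk t k) x y := by
      intro k
      have := pol T hT x y mp mn hp hn t k
      rw [← mul_sub, ← this]
      ring
    simp_rw [e2] at e1
    have e3 := tendsto_nhds_unique hψ e1
    rw [e3, ← Complex.ofReal_sub, norm_div, Complex.norm_real, div_pow, Real.norm_eq_abs, sq_abs]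
    norm_num
  -- the summable family
  have hdsum : Summable fun s : D => wt s * (mp.real {(s : ℝ)} - mn.real {(s : ℝ)}) ^ 2 := by
    have s1 := atoms_summable mp mp D hD
    have s2 := atoms_summable mp mn D hD
    have s4 := atoms_summable mn mn D hD
    refine ((s1.sub (s2.mul_left 2)).add s4).congr fun s => ?_
    ring
  -- the limit of the integrals
  have hlim : Tendsto (fun k => ∫ E, ep k * ‖Gr T (zk E k) x y‖ ^ 2 ∂Q) atTop
      (𝓝 (1 / 16 * (Real.pi * ∑' s : D, wt s * (mp.real {(s : ℝ)} - mn.real {(s : ℝ)}) ^ 2))) := by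
    have e := (diff_lim mp mn D hD hpD hnD).const_mul (1 / 16)
    refine e.congr fun k => ?_
    rw [← integral_const_mul]
    refine integral_congr_ae (Eventually.of_forall fun E => ?_)
    simp only
    rw [← pol T hT x y mp mn hp hn E k, norm_mul]
    norm_num
    ring
  -- the integrals as lower integrals
  have hnn : ∀ k x E, 0 ≤ ep k * ‖Gr T (zk E k) x y‖ ^ 2 :=
    fun k x E => mul_nonneg (ep_pos' k).le (sq_nonneg _)
  have hint : ∀ k, Integrable (fun E => ep k * ‖Gr T (zk E k) x y‖ ^ 2) Q := by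
    intro k
    have hPint := (Po_Q m).1 k
    refine hPint.mono' (gr_meas T hT x y k).aestronglyMeasurable (Eventually.of_forall fun E => ?_)
    rw [Real.norm_of_nonneg (hnn k x E)]
    have := sum_le_hasSum {x} (fun x _ => hnn k x E) (gr_sum T hT.sa y m hm E k)
    simpa using this
  have hle : ∀ k, ∫⁻ E, ENNReal.ofReal (ep k * ‖Gr T (zk E k) x y‖ ^ 2) ∂Q =
      ENNReal.ofReal (∫ E, ep k * ‖Gr T (zk E k) x y‖ ^ 2 ∂Q) := by
    intro k
    rw [ofReal_integral_eq_lintegral_ofReal (hint k) (Eventually.of_forall fun E => hnn k x E)]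
  simp_rw [hle]
  have hl2 : liminf (fun k => ENNReal.ofReal (∫ E, ep k * ‖Gr T (zk E k) x y‖ ^ 2 ∂Q)) atTop =
      ENNReal.ofReal (1 / 16 * (Real.pi * ∑' s : D, wt s *
        (mp.real {(s : ℝ)} - mn.real {(s : ℝ)}) ^ 2)) :=
    ((ENNReal.continuous_ofReal.tendsto _).comp hlim).liminf_eq
  rw [hl2]
  refine ENNReal.ofReal_le_ofReal ?_
  have h1 := hdsum.le_tsum (⟨t, htD⟩ : D) (fun s _ => mul_nonneg (wt_pos _).le (sq_nonneg _))
  simp only at h1
  rw [hψ2]
  have h2 : 0 < Real.pi := Real.pi_pos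
  calc Real.pi * wt t * ((mp.real {t} - mn.real {t}) ^ 2 / 16)
      = 1 / 16 * (Real.pi * (wt t * (mp.real {t} - mn.real {t}) ^ 2)) := by ring
    _ ≤ _ := by
      refine mul_le_mul_of_nonneg_left (mul_le_mul_of_nonneg_left h1 h2.le) (by norm_num)

end Pool.Agent.H277.FL
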